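import Pool.Agent.Helper20.EQ.St2

/-!
# Project EQ, module CEC (comparison of cells)
-/

set_option autoImplicit false

open MeasureTheory Set Filter Topology
open scoped ENNReal RealInnerProductSpace
open Pool.Agent.Helper20.RG Pool.Agent.Helper20.EQ

namespace Pool.Agent.Helper95.EQ

open Pool.Agent.Helper68.LM (Pl BB Bd Av HL ft fm DQ)

private lemma cel_sub_CEC {s s' la mu la' mu' : ℝ} {k : ℤ} {A : ℕ} {z z' : Pl}
    (hss : |s - s'| ≤ (2 : ℝ) ^ (-(A : ℤ)))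
    (h0 : |(z - z') 0| ≤ (2 : ℝ) ^ k) (h1 : |pr s (z - z')| ≤ (2 : ℝ) ^ (k - (A : ℤ)))
    (hla' : la + 2 ≤ la') (hmu' : la + mu + 4 ≤ mu') :
    Cel s la mu k A z ⊆ Cel s' la' mu' k A z' := by
  intro y hy
  obtain ⟨hy0, hy1⟩ := hy
  have hk : 0 < (2 : ℝ) ^ k := by positivity
  have hkA : 0 < (2 : ℝ) ^ (k - (A : ℤ)) := by positivity
  have hA : 0 < (2 : ℝ) ^ (-(A : ℤ)) := by positivity
  have hz0 : (z - z') 0 = z 0 - z' 0 := rfl
  rw [hz0] at h0
  have e0 : |y 0 - z' 0| ≤ (la / 2 + 1) * (2 : ℝ) ^ k := by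
    have : y 0 - z' 0 = (y 0 - z 0) + (z 0 - z' 0) := by ring
    rw [this]
    refine le_trans (abs_add_le _ _) ?_
    linarith
  refine ⟨?_, ?_⟩
  · refine le_trans e0 ?_
    nlinarith
  · have e1 : pr s' (y - z') = pr s (y - z) + pr s (z - z') + (s - s') * (y 0 - z' 0) := by
      unfold pr
      simp only [PiLp.sub_apply]
      ring
    rw [e1]
    have e2 : |(s - s') * (y 0 - z' 0)| ≤ (la / 2 + 1) * (2 : ℝ) ^ (k - (A : ℤ)) := by
      rw [abs_mul]
      have e3 : (2 : ℝ) ^ (k - (A : ℤ)) = (2 : ℝ) ^ (-(A : ℤ)) * (2 : ℝ) ^ k := by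
        rw [← zpow_add₀ (by norm_num : (2 : ℝ) ≠ 0)]
        congr 1
        ring
      rw [e3]
      calc |s - s'| * |y 0 - z' 0| ≤ (2 : ℝ) ^ (-(A : ℤ)) * ((la / 2 + 1) * (2 : ℝ) ^ k) :=
            mul_le_mul hss e0 (abs_nonneg _) hA.le
        _ = (la / 2 + 1) * ((2 : ℝ) ^ (-(A : ℤ)) * (2 : ℝ) ^ k) := by ring
    have e4 := abs_add_three (pr s (y - z)) (pr s (z - z')) ((s - s') * (y 0 - z' 0))
    refine le_trans e4 ?_
    nlinarith

theorem hCEC (hCEF : StCEF) : StCEC := by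
  intro s s' la mu la' mu' k A g z z' hs hs' hla hmu hg hg0 hss h0 h1 hla' hmu'
  have hla1 : 0 < la' := by linarith
  have hmu1 : 0 < mu' := by linarith
  have hk : 0 < (2 : ℝ) ^ k := by positivity
  have hkA : 0 < (2 : ℝ) ^ (k - (A : ℤ)) := by positivity
  obtain ⟨hm, _, hc⟩ := hCEF s la mu k A z hs hla hmu
  obtain ⟨hm', hv', hc'⟩ := hCEF s' la' mu' k A z' hs' hla1 hmu1
  rw [hc g hg, hc' g hg]
  have hsub := cel_sub_CEC (mu := mu) hss h0 h1 hla' hmu'
  have hint : IntegrableOn g (Cel s' la' mu' k A z') := by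
    obtain ⟨gm, K, hK, _⟩ := hg
    apply Measure.integrableOn_of_bounded (M := K)
    · rw [hv']
      exact ENNReal.ofReal_ne_top
    · exact gm.aestronglyMeasurable
    · filter_upwards with x
      exact hK x
  have hmono : ∫ y in Cel s la mu k A z, g y ≤ ∫ y in Cel s' la' mu' k A z', g y := by
    apply setIntegral_mono_set hint
    · filter_upwards with x
      exact hg0 x
    · exact hsub.eventuallyLE
  have hpos : 0 < la * mu * (2 : ℝ) ^ k * (2 : ℝ) ^ (k - (A : ℤ)) := by positivity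
  have e1 : la' * mu' / (la * mu) * (1 / (la' * mu' * (2 : ℝ) ^ k * (2 : ℝ) ^ (k - (A : ℤ))) *
      ∫ y in Cel s' la' mu' k A z', g y) = 1 / (la * mu * (2 : ℝ) ^ k * (2 : ℝ) ^ (k - (A : ℤ))) *
      ∫ y in Cel s' la' mu' k A z', g y := by
    field_simp
  rw [e1]
  exact mul_le_mul_of_nonneg_left hmono (by positivity)

end Pool.Agent.Helper95.EQ
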